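import Pool.Agent.H625.IdA.Cond
import Pool.Graph.R_seed8.W684.FM.Ambient

/-!
# The choice of the index set, and counting names
-/

set_option autoImplicit false

namespace Pool.Agent.H625.IdA

open Cardinal Set Pool.Agent.Helper669.Forcing
open Pool.Agent.W684.FM (PCCC Om1 exists_countable_name)

/-- The least cardinal `κ` with `2 ^ κ > 2 ^ ℵ₁`. -/
noncomputable def kap : Cardinal.{0} := sInf {κ | (2 : Cardinal.{0}) ^ (ℵ₁ : Cardinal.{0}) < 2 ^ κ}

/-- The index set. -/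
abbrev KK : Type := kap.ord.ToType

/-- The unbounded subsets of the index set. -/
abbrev Br : Type := {b : Set KK // ∀ γ : KK, ∃ β ∈ b, γ ≤ β}

theorem kap_spec : (2 : Cardinal.{0}) ^ (ℵ₁ : Cardinal.{0}) < 2 ^ kap :=
  csInf_mem (s := {κ | (2 : Cardinal.{0}) ^ (ℵ₁ : Cardinal.{0}) < 2 ^ κ})
    ⟨(2 : Cardinal.{0}) ^ (ℵ₁ : Cardinal.{0}), Cardinal.cantor _⟩

theorem kap_le : kap ≤ (2 : Cardinal.{0}) ^ (ℵ₁ : Cardinal.{0}) :=
  csInf_le' (Cardinal.cantor _)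

theorem two_pow_le_of_lt {c : Cardinal.{0}} (h : c < kap) :
    (2 : Cardinal.{0}) ^ c ≤ 2 ^ (ℵ₁ : Cardinal.{0}) :=
  not_lt.1 fun h' => not_lt.2 (csInf_le' (s := {κ | (2 : Cardinal.{0}) ^ (ℵ₁ : Cardinal.{0}) < 2 ^ κ})
    h') h

theorem aleph_one_lt_kap : (ℵ₁ : Cardinal.{0}) < kap := by
  by_contra h
  exact absurd kap_spec (not_lt.2 (Cardinal.power_le_power_left two_ne_zero (not_lt.1 h)))

theorem aleph0_le_kap : ℵ₀ ≤ kap := (aleph0_le_aleph 1).trans aleph_one_lt_kap.le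

theorem aleph0_le_two : ℵ₀ ≤ (2 : Cardinal.{0}) ^ (ℵ₁ : Cardinal.{0}) :=
  (aleph0_le_aleph 1).trans (Cardinal.cantor _).le

theorem exists_gt_KK (γ : KK) : ∃ δ, γ < δ := by
  by_contra hcon
  push Not at hcon
  have h1 : (Set.univ : Set KK) = Set.Iic γ := by
    ext x; simp [hcon x]
  have h2 : #(Set.Iio γ) < kap := by
    simpa using Cardinal.mk_Iio_toType_ord_lt γ
  have h3 : #(Set.Iic γ) ≤ #(Set.Iio γ) + 1 := by
    rw [← Set.Iio_insert]
    exact Cardinal.mk_insert_le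
  have h4 : #KK = kap := Cardinal.mk_ord_toType _
  rw [← Cardinal.mk_univ, h1] at h4
  have h5 : #(Set.Iio γ) + 1 < kap := Cardinal.add_lt_of_lt aleph0_le_kap h2
    (Cardinal.one_lt_aleph0.trans_le aleph0_le_kap)
  exact absurd (h4.symm.le.trans h3) (not_le.2 h5)

theorem nonempty_KK : Nonempty KK := by
  rw [← Cardinal.mk_ne_zero_iff, Cardinal.mk_ord_toType]
  exact (Cardinal.aleph0_pos.trans_le aleph0_le_kap).ne'

theorem mk_Nd_le : #(Nd KK) ≤ (2 : Cardinal.{0}) ^ (ℵ₁ : Cardinal.{0}) := by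
  have h1 : ({x : Set KK | ∃ γ, ∀ β ∈ x, β < γ}) ⊆ ⋃ γ : KK, 𝒫 (Set.Iio γ) := by
    rintro x ⟨γ, hγ⟩
    exact Set.mem_iUnion.2 ⟨γ, fun β hβ => hγ β hβ⟩
  have h2 : #(Nd KK) = #({x : Set KK | ∃ γ, ∀ β ∈ x, β < γ}) := rfl
  rw [h2]
  refine (Cardinal.mk_le_mk_of_subset h1).trans ((Cardinal.mk_iUnion_le _).trans ?_)
  refine (mul_le_mul' (b := (2 : Cardinal.{0}) ^ (ℵ₁ : Cardinal.{0}))
    (d := (2 : Cardinal.{0}) ^ (ℵ₁ : Cardinal.{0})) ?_ ?_).trans
    (Cardinal.mul_eq_self aleph0_le_two).le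
  · rw [Cardinal.mk_ord_toType]; exact kap_le
  · apply ciSup_le'
    intro γ
    rw [Cardinal.mk_powerset]
    exact two_pow_le_of_lt (by simpa using Cardinal.mk_Iio_toType_ord_lt γ)

theorem lt_mk_Br : (2 : Cardinal.{0}) ^ (ℵ₁ : Cardinal.{0}) < #Br := by
  by_contra hcon
  have hcon := not_lt.1 hcon
  have h1 : (Set.univ : Set (Set KK)) ⊆ {x : Set KK | ∃ γ, ∀ β ∈ x, β < γ} ∪
      {b : Set KK | ∀ γ : KK, ∃ β ∈ b, γ ≤ β} := by
    intro x _
    by_cases hx : ∃ γ, ∀ β ∈ x, β < γ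
    · exact Or.inl hx
    · right
      intro γ
      by_contra hc
      push Not at hc
      exact hx ⟨γ, hc⟩
  have h2 : #(Set KK) ≤ (2 : Cardinal.{0}) ^ (ℵ₁ : Cardinal.{0}) := by
    rw [← Cardinal.mk_univ]
    refine (Cardinal.mk_le_mk_of_subset h1).trans ((Cardinal.mk_union_le _ _).trans ?_)
    refine (add_le_add (b := (2 : Cardinal.{0}) ^ (ℵ₁ : Cardinal.{0}))
      (d := (2 : Cardinal.{0}) ^ (ℵ₁ : Cardinal.{0})) mk_Nd_le hcon).trans
      (Cardinal.add_eq_self aleph0_le_two).le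
  rw [Cardinal.mk_set, Cardinal.mk_ord_toType] at h2
  exact absurd kap_spec (not_lt.2 h2)

theorem mk_finset_le {X : Type} (h : #X ≤ (2 : Cardinal.{0}) ^ (ℵ₁ : Cardinal.{0})) :
    #(Finset X) ≤ (2 : Cardinal.{0}) ^ (ℵ₁ : Cardinal.{0}) := by
  classical
  have h1 : #(Finset X) ≤ #(List X) := Cardinal.mk_le_of_surjective (f := List.toFinset)
    List.toFinset_surjective
  refine h1.trans ((Cardinal.mk_list_le_max X).trans (max_le aleph0_le_two h))

theorem mk_Cd_le : #(Cd KK) ≤ (2 : Cardinal.{0}) ^ (ℵ₁ : Cardinal.{0}) := by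
  have hK : #KK ≤ (2 : Cardinal.{0}) ^ (ℵ₁ : Cardinal.{0}) := by
    rw [Cardinal.mk_ord_toType]; exact kap_le
  have h1 : #(Cd KK) ≤ #(Finset (Nd KK) × Finset KK × Finset (Nd KK × KK)) := by
    refine Cardinal.mk_le_of_injective (f := fun p => (p.s, p.L, p.F)) ?_
    rintro ⟨s, L, F⟩ ⟨s', L', F'⟩ h
    simp only [Prod.mk.injEq] at h
    obtain ⟨rfl, rfl, rfl⟩ := h
    rfl
  refine h1.trans ?_
  have hm : (2 : Cardinal.{0}) ^ (ℵ₁ : Cardinal.{0}) * 2 ^ (ℵ₁ : Cardinal.{0}) ≤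
    2 ^ (ℵ₁ : Cardinal.{0}) := (Cardinal.mul_eq_self aleph0_le_two).le
  have h2 : #(Nd KK × KK) ≤ (2 : Cardinal.{0}) ^ (ℵ₁ : Cardinal.{0}) := by
    rw [Cardinal.mk_prod, Cardinal.lift_id, Cardinal.lift_id]
    exact (mul_le_mul' mk_Nd_le hK).trans hm
  rw [Cardinal.mk_prod, Cardinal.mk_prod, Cardinal.lift_id, Cardinal.lift_id, Cardinal.lift_id,
    Cardinal.lift_id]
  refine (mul_le_mul' (mk_finset_le mk_Nd_le) ((mul_le_mul' (mk_finset_le hK)
    (mk_finset_le h2)).trans hm)).trans hm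

/-- counting names: for a ccc set of conditions of size at most `2 ^ ℵ₁` -/
theorem exists_same {P : Type} [Preorder P] (hP : PCCC P)
    (hPK : #P ≤ (2 : Cardinal.{0}) ^ (ℵ₁ : Cardinal.{0})) {B : Type}
    (hB : (2 : Cardinal.{0}) ^ (ℵ₁ : Cardinal.{0}) < #B) (S : B → Om1 → Set P) :
    ∃ b b', b ≠ b' ∧ ∀ ξ, meets (S b ξ) = meets (S b' ξ) := by
  classical
  choose A hA hA' using fun b ξ => exists_countable_name hP (S b ξ)
  have h1 : ∀ b ξ, ∃ g : ℕ → Option P, A b ξ = {x | ∃ n, g n = some x} := by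
    intro b ξ
    by_cases hne : (A b ξ).Nonempty
    · obtain ⟨e, he⟩ := (hA b ξ).exists_eq_range hne
      refine ⟨fun n => some (e n), ?_⟩
      rw [he]
      ext x
      simp
    · refine ⟨fun _ => none, ?_⟩
      rw [Set.not_nonempty_iff_eq_empty.1 hne]
      ext x
      simp
  choose g hg using h1
  by_contra hcon
  push Not at hcon
  have hinj : Function.Injective g := by
    intro b b' hbb
    by_contra hne
    obtain ⟨ξ, hξ⟩ := hcon b b' hne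
    apply hξ
    rw [← hA' b ξ, ← hA' b' ξ, hg, hg, hbb]
  have h2 := Cardinal.mk_le_of_injective hinj
  apply absurd hB (not_lt.2 (h2.trans _))
  have h3 : #(Option P) ≤ (2 : Cardinal.{0}) ^ (ℵ₁ : Cardinal.{0}) := by
    rw [Cardinal.mk_option]
    exact Cardinal.add_le_of_le aleph0_le_two hPK (Cardinal.one_le_aleph0.trans aleph0_le_two)
  have h4 : #(Om1 → ℕ → Option P) = (#(Option P) ^ ℵ₀) ^ (ℵ₁ : Cardinal.{0}) := by
    rw [← Cardinal.power_def, ← Cardinal.power_def, Cardinal.mk_ord_toType, Cardinal.mk_nat]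
  rw [h4, ← Cardinal.power_mul]
  refine (Cardinal.power_le_power_right h3).trans ?_
  rw [← Cardinal.power_mul, Cardinal.aleph0_mul_eq (aleph0_le_aleph 1),
    Cardinal.mul_eq_self (aleph0_le_aleph 1)]

end Pool.Agent.H625.IdA
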