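import Pool.Agent.H625.IdA.Core
import Pool.Graph.R_seed8.H151.Combi

/-!
# The conditions and the two properties of the forcing
-/

set_option autoImplicit false

namespace Pool.Agent.H625.IdA

open Set

variable (K : Type) [LinearOrder K]

/-- The bounded subsets of `K`. -/
def Nd : Type := {x : Set K // ∃ γ, ∀ β ∈ x, β < γ}

/-- The conditions: finite 0-1 matrices with rows in `Nd K` and columns in `K`. -/
structure Cd where
  s : Finset (Nd K)
  L : Finset K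
  F : Finset (Nd K × K)

variable {K}

/-- The underlying set. -/
def vl (x : Nd K) : Set K := x.1

theorem vl_inj {x y : Nd K} (h : vl x = vl y) : x = y := Subtype.ext h

/-- The entries. -/
def Cd.a (p : Cd K) (x : Nd K) (α : K) : Prop := (x, α) ∈ p.F

/-- The relation of a condition. -/
def Cd.R (p : Cd K) (x y : Nd K) : Prop := x ∈ p.s ∧ y ∈ p.s ∧ IdA.R vl p.L p.a x y

theorem Cd.R.trans {p : Cd K} {x y z : Nd K} (h : p.R x y) (h' : p.R y z) : p.R x z :=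
  ⟨h.1, h'.2.1, IdA.R.trans h.2.2 h'.2.2⟩

theorem Cd.R.irrefl {p : Cd K} {x : Nd K} (h : p.R x x) : False := IdA.R.irrefl h.2.2

instance : Preorder (Cd K) where
  le q p := p.s ⊆ q.s ∧ p.L ⊆ q.L ∧ (∀ x ∈ p.s, ∀ α ∈ p.L, (q.a x α ↔ p.a x α)) ∧
    ∀ x y, p.R x y → q.R x y
  le_refl p := ⟨Finset.Subset.refl _, Finset.Subset.refl _, fun _ _ _ _ => Iff.rfl,
    fun _ _ h => h⟩
  le_trans r q p h h' := ⟨h'.1.trans h.1, h'.2.1.trans h.2.1,
    fun x hx α hα => (h.2.2.1 x (h'.1 hx) α (h'.2.1 hα)).trans (h'.2.2.1 x hx α hα),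
    fun x y hxy => h.2.2.2 x y (h'.2.2.2 x y hxy)⟩

theorem Cd.le_def {p q : Cd K} : q ≤ p ↔ p.s ⊆ q.s ∧ p.L ⊆ q.L ∧
    (∀ x ∈ p.s, ∀ α ∈ p.L, (q.a x α ↔ p.a x α)) ∧ ∀ x y, p.R x y → q.R x y := Iff.rfl

open Classical in
/-- The condition with given entries. -/
noncomputable def mkC (s : Finset (Nd K)) (L : Finset K) (b : Nd K → K → Prop) : Cd K where
  s := s
  L := L
  F := (s ×ˢ L).filter fun z => b z.1 z.2

theorem mkC_a {s : Finset (Nd K)} {L : Finset K} {b : Nd K → K → Prop} {x : Nd K} {α : K}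
    (hx : x ∈ s) (hα : α ∈ L) : (mkC s L b).a x α ↔ b x α := by
  unfold Cd.a mkC
  simp [hx, hα]

theorem R_congr {T : Type} {v : T → Set K} {L : Finset K} {a b : T → K → Prop} {x y : T}
    (h : ∀ α ∈ L, (a x α ↔ b x α) ∧ (a y α ↔ b y α)) (hR : IdA.R v L a x y) :
    IdA.R v L b x y := by
  obtain ⟨δ, h1, h2, h3, h4, h5⟩ := hR
  exact ⟨δ, h1, h2, (h δ h1).1.1 h3, fun hy => h4 ((h δ h1).2.2 hy),
    fun α hα hαδ hy => (h α hα).1.1 (h5 α hα hαδ ((h α hα).2.2 hy))⟩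

theorem mkC_R {s : Finset (Nd K)} {L : Finset K} {b : Nd K → K → Prop} {x y : Nd K}
    (hx : x ∈ s) (hy : y ∈ s) (h : IdA.R vl L b x y) : (mkC s L b).R x y :=
  ⟨hx, hy, R_congr (fun _ hα => ⟨(mkC_a hx hα).symm, (mkC_a hy hα).symm⟩) h⟩

theorem mkC_le {p : Cd K} {s : Finset (Nd K)} {L : Finset K} {b : Nd K → K → Prop}
    (hs : p.s ⊆ s) (hL : p.L ⊆ L) (hb : ∀ x ∈ p.s, ∀ α ∈ p.L, (b x α ↔ p.a x α))
    (hR : ∀ x y, p.R x y → IdA.R vl L b x y) : mkC s L b ≤ p :=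
  ⟨hs, hL, fun x hx α hα => (mkC_a (hs hx) (hL hα)).trans (hb x hx α hα),
    fun x y h => mkC_R (hs h.1) (hs h.2.1) (hR x y h)⟩

/-- adding a column in which `x` and its predecessors get the value 1 -/
theorem ext_col {T : Type} {v : T → Set K} {s : Finset T} {L : Finset K} {a : T → K → Prop}
    {E : T → T → Prop}
    (hE : ∀ u w, E u w → u ∈ s ∧ w ∈ s ∧ IdA.R v L a u w) (tE : ∀ u w z, E u w → E w z → E u z)
    {ε : K} (hε : ε ∉ L) (x : T) :
    ∃ a1 : T → K → Prop, (∀ u, ∀ α ∈ L, (a1 u α ↔ a u α)) ∧ a1 x ε ∧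
      ∀ u w, E u w → IdA.R v (insert ε L) a1 u w := by
  classical
  let a1 : T → K → Prop := fun u α => if α = ε then (u = x ∨ (E u x ∧ Ag ε (v u) (v x))) else a u α
  have h1 : ∀ u, ∀ α ∈ L, (a1 u α ↔ a u α) := by
    intro u α hα
    have : α ≠ ε := fun h => hε (h ▸ hα)
    simp only [a1, if_neg this]
  refine ⟨a1, h1, ?_, fun u w huw => ?_⟩
  · simp [a1]
  · obtain ⟨hu, hw, δ, k1, k2, k3, k4, k5⟩ := hE u w huw
    refine ⟨δ, Finset.mem_insert_of_mem k1, k2, (h1 u δ k1).2 k3, fun h => k4 ((h1 w δ k1).1 h),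
      fun α hα hαδ ha => ?_⟩
    rcases Finset.mem_insert.1 hα with rfl | hα
    · simp only [a1, if_true] at ha ⊢
      rcases ha with rfl | ⟨ha, ha'⟩
      · exact Or.inr ⟨huw, k2.ag hαδ⟩
      · exact Or.inr ⟨tE _ _ _ huw ha, (k2.ag hαδ).trans ha'⟩
    · exact (h1 u α hα).2 (k5 α hα hαδ ((h1 w α hα).1 ha))

/-- amalgamation without a new relation -/
theorem join (p p' : Cd K)
    (root : ∀ u w, u ∈ p.s → u ∈ p'.s → w ∈ p.s → w ∈ p'.s → (p.R u w ↔ p'.R u w))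
    (ra : ∀ u α, u ∈ p.s → u ∈ p'.s → α ∈ p.L → α ∈ p'.L → (p.a u α ↔ p'.a u α)) :
    ∃ q ≤ p, q ≤ p' := by
  classical
  by_cases hK : Nonempty K ∧ Nonempty (Nd K)
  · obtain ⟨⟨ε⟩, ⟨x⟩⟩ := hK
    obtain ⟨b, h1, h2, h3, h4, -⟩ := amalg (v := vl) (s := p.s) (s' := p'.s) (L := p.L)
      (L' := p'.L) (a := p.a) (a' := p'.a) (E := p.R) (E' := p'.R) (fun _ _ h => h)
      (fun _ _ _ h h' => h.trans h') (fun _ _ h => h) (fun _ _ _ h h' => h.trans h') root ra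
      False x x False.elim False.elim False.elim False.elim False.elim ε False.elim False.elim
      False.elim False.elim
    exact ⟨mkC (p.s ∪ p'.s) (p.L ∪ p'.L) b,
      mkC_le Finset.subset_union_left Finset.subset_union_left h1 h3,
      mkC_le Finset.subset_union_right Finset.subset_union_right h2 h4⟩
  · rw [not_and_or] at hK
    have hK' : ∀ (x : Nd K) (α : K), False := by
      rcases hK with h | h
      · exact fun x α => h ⟨α⟩
      · exact fun x α => h ⟨x⟩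
    refine ⟨mkC (p.s ∪ p'.s) (p.L ∪ p'.L) fun _ _ => True,
      mkC_le Finset.subset_union_left Finset.subset_union_left (fun x _ α _ => (hK' x α).elim)
        (fun x y h => ?_),
      mkC_le Finset.subset_union_right Finset.subset_union_right (fun x _ α _ => (hK' x α).elim)
        (fun x y h => ?_)⟩
    all_goals
      obtain ⟨δ, _⟩ := h.2.2
      exact (hK' x δ).elim

/-- amalgamation with a new relation, in one direction -/
theorem join_dir (p p' : Cd K)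
    (root : ∀ u w, u ∈ p.s → u ∈ p'.s → w ∈ p.s → w ∈ p'.s → (p.R u w ↔ p'.R u w))
    (ra : ∀ u α, u ∈ p.s → u ∈ p'.s → α ∈ p.L → α ∈ p'.L → (p.a u α ↔ p'.a u α))
    (x y : Nd K) (hx : x ∈ p.s ∧ x ∉ p'.s) (hy : y ∈ p'.s ∧ y ∉ p.s)
    (h1 : ∀ ρ, ρ ∈ p.s → ρ ∈ p'.s → (p.R ρ x ↔ p'.R ρ y))
    (h2 : ∀ ρ, ρ ∈ p.s → ρ ∈ p'.s → (p.R x ρ ↔ p'.R y ρ))
    (h3 : ∀ α, α ∈ p.L → α ∈ p'.L → (p.a x α ↔ p'.a y α))
    (ε : K) (hε : Sp ε (vl x) (vl y))
    (h4 : ε ∈ p.L → p.a x ε) (h5 : ε ∈ p'.L → ¬ p'.a y ε) :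
    ∃ q ≤ p, q ≤ p' ∧ q.R x y := by
  classical
  by_cases hεL : ε ∈ p.L ∨ ε ∈ p'.L
  · obtain ⟨b, k1, k2, k3, k4, k5⟩ := amalg (v := vl) (s := p.s) (s' := p'.s) (L := p.L)
      (L' := p'.L) (a := p.a) (a' := p'.a) (E := p.R) (E' := p'.R) (fun _ _ h => h)
      (fun _ _ _ h h' => h.trans h') (fun _ _ h => h) (fun _ _ _ h h' => h.trans h') root ra
      True x y (fun _ => hx) (fun _ => hy) (fun _ => h1) (fun _ => h2) (fun _ => h3) ε
      (fun _ => hε) (fun _ => hεL) (fun _ => h4) (fun _ => h5)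
    exact ⟨mkC (p.s ∪ p'.s) (p.L ∪ p'.L) b,
      mkC_le Finset.subset_union_left Finset.subset_union_left k1 k3,
      mkC_le Finset.subset_union_right Finset.subset_union_right k2 k4,
      mkC_R (Finset.mem_union_left _ hx.1) (Finset.mem_union_right _ hy.1) (k5 trivial)⟩
  · rw [not_or] at hεL
    obtain ⟨a1, e1, e2, e3⟩ := ext_col (v := vl) (s := p.s) (L := p.L) (a := p.a) (E := p.R)
      (fun _ _ h => h) (fun _ _ _ h h' => h.trans h') hεL.1 x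
    obtain ⟨b, k1, k2, k3, k4, k5⟩ := amalg (v := vl) (s := p.s) (s' := p'.s)
      (L := insert ε p.L) (L' := p'.L) (a := a1) (a' := p'.a) (E := p.R) (E' := p'.R)
      (fun u w h => ⟨h.1, h.2.1, e3 u w h⟩)
      (fun _ _ _ h h' => h.trans h') (fun _ _ h => h) (fun _ _ _ h h' => h.trans h') root
      (fun u α hu hu' hα hα' => by
        have hα1 : α ∈ p.L := (Finset.mem_insert.1 hα).resolve_left
          (fun h => hεL.2 (h ▸ hα'))
        exact (e1 u α hα1).trans (ra u α hu hu' hα1 hα'))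
      True x y (fun _ => hx) (fun _ => hy) (fun _ => h1) (fun _ => h2)
      (fun _ α hα hα' => by
        have hα1 : α ∈ p.L := (Finset.mem_insert.1 hα).resolve_left
          (fun h => hεL.2 (h ▸ hα'))
        exact (e1 x α hα1).trans (h3 α hα1 hα')) ε
      (fun _ => hε) (fun _ => Or.inl (Finset.mem_insert_self _ _)) (fun _ _ => e2)
      (fun _ h => absurd h hεL.2)
    have hsub : p.L ⊆ insert ε p.L ∪ p'.L :=
      (Finset.subset_insert _ _).trans Finset.subset_union_left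
    exact ⟨mkC (p.s ∪ p'.s) (insert ε p.L ∪ p'.L) b,
      mkC_le Finset.subset_union_left hsub
        (fun u hu α hα => (k1 u hu α (Finset.mem_insert_of_mem hα)).trans (e1 u α hα)) k3,
      mkC_le Finset.subset_union_right Finset.subset_union_right k2 k4,
      mkC_R (Finset.mem_union_left _ hx.1) (Finset.mem_union_right _ hy.1) (k5 trivial)⟩

/-- The main property: among uncountably many conditions with marked rows there are two which have
a common extension in which the marked rows are equal or related. -/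
theorem main [WellFoundedLT K] {I : Type} (p : I → Cd K) (x : I → Nd K)
    (hx : ∀ i, x i ∈ (p i).s) (hI : ¬ (univ : Set I).Countable) :
    ∃ i j, i ≠ j ∧ ∃ q, q ≤ p i ∧ q ≤ p j ∧ (x i = x j ∨ q.R (x i) (x j)) := by
  classical
  obtain ⟨J, R0, -, hJ, hR1, hR2⟩ := H151.delta_system
    (fun i => (p i).s.disjSum (p i).L) (univ : Set I) hI
  let r : Finset (Nd K) := R0.toLeft
  let l : Finset K := R0.toRight
  have hr1 : ∀ i ∈ J, ∀ ρ ∈ r, ρ ∈ (p i).s := by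
    intro i hi ρ hρ
    have := hR1 i hi (Finset.mem_toLeft.1 hρ)
    simpa using this
  have hl1 : ∀ i ∈ J, ∀ α ∈ l, α ∈ (p i).L := by
    intro i hi ρ hρ
    have := hR1 i hi (Finset.mem_toRight.1 hρ)
    simpa using this
  have hr2 : ∀ i ∈ J, ∀ j ∈ J, i ≠ j → ∀ ρ, ρ ∈ (p i).s → ρ ∈ (p j).s → ρ ∈ r := by
    intro i hi j hj hij ρ h1 h2
    exact Finset.mem_toLeft.2 (hR2 i hi j hj hij (Sum.inl ρ) (by simpa using h1)
      (by simpa using h2))
  have hl2 : ∀ i ∈ J, ∀ j ∈ J, i ≠ j → ∀ α, α ∈ (p i).L → α ∈ (p j).L → α ∈ l := by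
    intro i hi j hj hij ρ h1 h2
    exact Finset.mem_toRight.2 (hR2 i hi j hj hij (Sum.inr ρ) (by simpa using h1)
      (by simpa using h2))
  let f : I → (r → r → Prop) × (r → l → Prop) × (r → Prop) × (r → Prop) × (l → Prop) ×
      (l → Prop) × (r → Prop) := fun i =>
    (fun u w => (p i).R u.1 w.1, fun u α => (p i).a u.1 α.1, fun u => (p i).R u.1 (x i),
      fun u => (p i).R (x i) u.1, fun α => (p i).a (x i) α.1, fun α => α.1 ∈ vl (x i),
      fun u => u.1 = x i)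
  obtain ⟨c, hc⟩ := H151.uncountable_fiber f J hJ
  have hnt : ¬ {i ∈ J | f i = c}.Subsingleton := fun h => hc h.countable
  obtain ⟨i, ⟨hi, hfi⟩, j, ⟨hj, hfj⟩, hij⟩ := not_subsingleton_iff.1 hnt
  have hf : f i = f j := hfi.trans hfj.symm
  simp only [f, Prod.mk.injEq] at hf
  obtain ⟨f1, f2, f3, f4, f5, f6, f7⟩ := hf
  have root : ∀ u w, u ∈ (p i).s → u ∈ (p j).s → w ∈ (p i).s → w ∈ (p j).s →
      ((p i).R u w ↔ (p j).R u w) := fun u w h1 h2 h3 h4 =>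
    iff_of_eq (congrFun (congrFun f1 ⟨u, hr2 i hi j hj hij u h1 h2⟩)
      ⟨w, hr2 i hi j hj hij w h3 h4⟩)
  have ra : ∀ u α, u ∈ (p i).s → u ∈ (p j).s → α ∈ (p i).L → α ∈ (p j).L →
      ((p i).a u α ↔ (p j).a u α) := fun u α h1 h2 h3 h4 =>
    iff_of_eq (congrFun (congrFun f2 ⟨u, hr2 i hi j hj hij u h1 h2⟩)
      ⟨α, hl2 i hi j hj hij α h3 h4⟩)
  by_cases hxr : x i ∈ r
  · have hxx : x i = x j := (iff_of_eq (congrFun f7 ⟨x i, hxr⟩)).1 rfl
    obtain ⟨q, hq, hq'⟩ := join (p i) (p j) root ra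
    exact ⟨i, j, hij, q, hq, hq', Or.inl hxx⟩
  · have hxr' : x j ∉ r := fun h => hxr (by
      have hxx : x j = x i := (iff_of_eq (congrFun f7 ⟨x j, h⟩)).2 rfl
      rwa [← hxx])
    have hxi : x i ∉ (p j).s := fun h => hxr (hr2 i hi j hj hij _ (hx i) h)
    have hxj : x j ∉ (p i).s := fun h => hxr' (hr2 i hi j hj hij _ h (hx j))
    have hne : vl (x i) ≠ vl (x j) := fun h => hxi (by rw [vl_inj h]; exact hx j)
    obtain ⟨ε, hε⟩ := exists_sp hne
    have h1 : ∀ ρ, ρ ∈ (p i).s → ρ ∈ (p j).s → ((p i).R ρ (x i) ↔ (p j).R ρ (x j)) :=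
      fun ρ k1 k2 => iff_of_eq (congrFun f3 ⟨ρ, hr2 i hi j hj hij ρ k1 k2⟩)
    have h2 : ∀ ρ, ρ ∈ (p i).s → ρ ∈ (p j).s → ((p i).R (x i) ρ ↔ (p j).R (x j) ρ) :=
      fun ρ k1 k2 => iff_of_eq (congrFun f4 ⟨ρ, hr2 i hi j hj hij ρ k1 k2⟩)
    have h3 : ∀ α, α ∈ (p i).L → α ∈ (p j).L → ((p i).a (x i) α ↔ (p j).a (x j) α) :=
      fun α k1 k2 => iff_of_eq (congrFun f5 ⟨α, hl2 i hi j hj hij α k1 k2⟩)
    have hεn : ¬ (ε ∈ (p i).L ∧ ε ∈ (p j).L) := fun h =>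
      hε.2 (iff_of_eq (congrFun f6 ⟨ε, hl2 i hi j hj hij ε h.1 h.2⟩))
    by_cases hdir : (ε ∈ (p i).L → (p i).a (x i) ε) ∧ (ε ∈ (p j).L → ¬ (p j).a (x j) ε)
    · obtain ⟨q, k1, k2, k3⟩ := join_dir (p i) (p j) root ra (x i) (x j) ⟨hx i, hxi⟩
        ⟨hx j, hxj⟩ h1 h2 h3 ε hε hdir.1 hdir.2
      exact ⟨i, j, hij, q, k1, k2, Or.inr k3⟩
    · have hdir' : (ε ∈ (p j).L → (p j).a (x j) ε) ∧ (ε ∈ (p i).L → ¬ (p i).a (x i) ε) := by
        tauto
      obtain ⟨q, k1, k2, k3⟩ := join_dir (p j) (p i) (fun u w k1 k2 k3 k4 =>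
        (root u w k2 k1 k4 k3).symm) (fun u α k1 k2 k3 k4 => (ra u α k2 k1 k4 k3).symm)
        (x j) (x i) ⟨hx j, hxj⟩ ⟨hx i, hxi⟩ (fun ρ k1 k2 => (h1 ρ k2 k1).symm)
        (fun ρ k1 k2 => (h2 ρ k2 k1).symm) (fun α k1 k2 => (h3 α k2 k1).symm) ε hε.symm
        hdir'.1 hdir'.2
      exact ⟨j, i, hij.symm, q, k1, k2, Or.inr k3⟩

end Pool.Agent.H625.IdA
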