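import Mathlib

/-!
# Amalgamation of finite 0-1 matrices
-/

set_option autoImplicit false

namespace Pool.Agent.H625.IdA

variable {K : Type} [LinearOrder K]

/-- `α` is the first place where `x` and `y` differ. -/
def Sp (α : K) (x y : Set K) : Prop := (∀ β < α, (β ∈ x ↔ β ∈ y)) ∧ ¬ (α ∈ x ↔ α ∈ y)

/-- `x` and `y` agree up to `α`, including `α`. -/
def Ag (α : K) (x y : Set K) : Prop := ∀ β ≤ α, (β ∈ x ↔ β ∈ y)

theorem Ag.refl (α : K) (x : Set K) : Ag α x x := fun _ _ => Iff.rfl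

theorem Ag.symm {α : K} {x y : Set K} (h : Ag α x y) : Ag α y x := fun β hβ => (h β hβ).symm

theorem Ag.trans {α : K} {x y z : Set K} (h : Ag α x y) (h' : Ag α y z) : Ag α x z :=
  fun β hβ => (h β hβ).trans (h' β hβ)

theorem Sp.symm {α : K} {x y : Set K} (h : Sp α x y) : Sp α y x :=
  ⟨fun β hβ => (h.1 β hβ).symm, fun h' => h.2 h'.symm⟩

theorem Sp.ag {δ α : K} {x y : Set K} (h : Sp δ x y) (hα : α < δ) : Ag α x y :=
  fun β hβ => h.1 β (hβ.trans_lt hα)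

theorem Sp.lt_of_ag {δ α : K} {x y : Set K} (h : Sp δ x y) (hα : Ag α x y) : α < δ := by
  by_contra hc
  exact h.2 (hα δ (not_lt.1 hc))

theorem Sp.unique {δ ε : K} {x y : Set K} (h : Sp δ x y) (h' : Sp ε x y) : δ = ε := by
  rcases lt_trichotomy δ ε with hlt | heq | hlt
  · exact absurd (h'.1 δ hlt) h.2
  · exact heq
  · exact absurd (h.1 ε hlt) h'.2

theorem Sp.ag_left {ε : K} {x y u : Set K} (h : Sp ε x y) (hu : Ag ε u x) : Sp ε u y :=
  ⟨fun β hβ => (hu β hβ.le).trans (h.1 β hβ), fun h' => h.2 ((hu ε le_rfl).symm.trans h')⟩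

theorem Sp.ag_right {ε : K} {x y u : Set K} (h : Sp ε x y) (hu : Ag ε y u) : Sp ε x u :=
  (h.symm.ag_left hu.symm).symm

theorem Sp.lt_trans {δ ε : K} {x y z : Set K} (h : Sp δ x y) (h' : Sp ε y z) (hlt : δ < ε) :
    Sp δ x z := h.ag_right (h'.ag hlt)

theorem Sp.gt_trans {δ ε : K} {x y z : Set K} (h : Sp δ x y) (h' : Sp ε y z) (hlt : ε < δ) :
    Sp ε x z := h'.ag_left (h.ag hlt)

theorem not_sp_self (α : K) (x : Set K) : ¬ Sp α x x := fun h => h.2 Iff.rfl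

theorem exists_sp [WellFoundedLT K] {x y : Set K} (h : x ≠ y) : ∃ α, Sp α x y := by
  have hne : {α | ¬ (α ∈ x ↔ α ∈ y)}.Nonempty := by
    by_contra hc
    apply h
    ext α
    by_contra hα
    exact hc ⟨α, hα⟩
  obtain ⟨α, hα, hmin⟩ := WellFounded.has_min (wellFounded_lt (α := K)) _ hne
  refine ⟨α, fun β hβ => ?_, hα⟩
  by_contra hc
  exact hmin β hc hβ

variable {T : Type} (v : T → Set K)

/-- the relation defined by the matrix `a` with the columns `L` -/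
def R (L : Finset K) (a : T → K → Prop) (x y : T) : Prop :=
  ∃ δ ∈ L, Sp δ (v x) (v y) ∧ a x δ ∧ ¬ a y δ ∧ ∀ α ∈ L, α < δ → a y α → a x α

variable {v}

theorem R.mono_at {L : Finset K} {a : T → K → Prop} {x y : T} (h : R v L a x y) {α : K}
    (hα : α ∈ L) (hag : Ag α (v x) (v y)) (hy : a y α) : a x α := by
  obtain ⟨δ, _, h2, _, _, h5⟩ := h
  exact h5 α hα (h2.lt_of_ag hag) hy

theorem R.at_sp {L : Finset K} {a : T → K → Prop} {x y : T} (h : R v L a x y) {ε : K}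
    (hε : Sp ε (v x) (v y)) : ε ∈ L ∧ a x ε ∧ ¬ a y ε := by
  obtain ⟨δ, h1, h2, h3, h4, _⟩ := h
  obtain rfl := h2.unique hε
  exact ⟨h1, h3, h4⟩

theorem R.irrefl {L : Finset K} {a : T → K → Prop} {x : T} (h : R v L a x x) : False := by
  obtain ⟨δ, _, h2, _⟩ := h
  exact not_sp_self _ _ h2

theorem R.trans {L : Finset K} {a : T → K → Prop} {x y z : T} (h : R v L a x y)
    (h' : R v L a y z) : R v L a x z := by
  obtain ⟨δ, h1, h2, h3, h4, h5⟩ := h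
  obtain ⟨ε, k1, k2, k3, k4, k5⟩ := h'
  rcases lt_trichotomy δ ε with hlt | heq | hlt
  · exact ⟨δ, h1, h2.lt_trans k2 hlt, h3, fun hz => h4 (k5 δ h1 hlt hz),
      fun α hα hαδ hz => h5 α hα hαδ (k5 α hα (hαδ.trans hlt) hz)⟩
  · subst heq
    exact absurd k3 h4
  · exact ⟨ε, k1, h2.gt_trans k2 hlt, h5 ε k1 hlt k3, k4,
      fun α hα hαε hz => h5 α hα (hαε.trans hlt) (k5 α hα hαε hz)⟩

/-- The amalgamation of two matrices, with a new relation `x < y` if `on` holds. -/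
theorem amalg {s s' : Finset T} {L L' : Finset K} {a a' : T → K → Prop} {E E' : T → T → Prop}
    (hE : ∀ u w, E u w → u ∈ s ∧ w ∈ s ∧ R v L a u w) (tE : ∀ u w z, E u w → E w z → E u z)
    (hE' : ∀ u w, E' u w → u ∈ s' ∧ w ∈ s' ∧ R v L' a' u w)
    (tE' : ∀ u w z, E' u w → E' w z → E' u z)
    (root : ∀ u w, u ∈ s → u ∈ s' → w ∈ s → w ∈ s' → (E u w ↔ E' u w))
    (ra : ∀ u α, u ∈ s → u ∈ s' → α ∈ L → α ∈ L' → (a u α ↔ a' u α))
    (on : Prop) (x y : T) (hx : on → x ∈ s ∧ x ∉ s') (hy : on → y ∈ s' ∧ y ∉ s)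
    (h1 : on → ∀ ρ, ρ ∈ s → ρ ∈ s' → (E ρ x ↔ E' ρ y))
    (h2 : on → ∀ ρ, ρ ∈ s → ρ ∈ s' → (E x ρ ↔ E' y ρ))
    (h3 : on → ∀ α, α ∈ L → α ∈ L' → (a x α ↔ a' y α))
    (ε : K) (hε : on → Sp ε (v x) (v y)) (hεL : on → ε ∈ L ∨ ε ∈ L')
    (h4 : on → ε ∈ L → a x ε) (h5 : on → ε ∈ L' → ¬ a' y ε) :
    ∃ b : T → K → Prop, (∀ u ∈ s, ∀ α ∈ L, (b u α ↔ a u α)) ∧
      (∀ u ∈ s', ∀ α ∈ L', (b u α ↔ a' u α)) ∧
      (∀ u w, E u w → R v (L ∪ L') b u w) ∧ (∀ u w, E' u w → R v (L ∪ L') b u w) ∧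
      (on → R v (L ∪ L') b x y) := by
  classical
  let Z : T → K → Prop := fun w α =>
    (∃ ρ, ρ ∈ s ∧ ρ ∈ s' ∧ E' ρ w ∧ Ag α (v ρ) (v w) ∧ ¬ a ρ α) ∨
    (on ∧ (w = y ∨ (E' y w ∧ Ag α (v y) (v w))) ∧ (α = ε ∨ (Ag α (v x) (v y) ∧ ¬ a x α)))
  let O : T → K → Prop := fun w α =>
    (∃ ρ, ρ ∈ s ∧ ρ ∈ s' ∧ E w ρ ∧ Ag α (v w) (v ρ) ∧ a' ρ α) ∨
    (on ∧ (w = x ∨ (E w x ∧ Ag α (v w) (v x))) ∧ (α = ε ∨ (Ag α (v x) (v y) ∧ a' y α)))
  let b : T → K → Prop := fun w α =>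
    if w ∈ s ∧ α ∈ L then a w α else if w ∈ s' ∧ α ∈ L' then a' w α
      else if α ∈ L then ¬ Z w α else O w α
  have b1 : ∀ w α, w ∈ s → α ∈ L → (b w α ↔ a w α) := by
    intro w α hw hα
    simp only [b, if_pos (And.intro hw hα)]
  have b2 : ∀ w α, w ∈ s' → α ∈ L' → (b w α ↔ a' w α) := by
    intro w α hw hα
    by_cases h : w ∈ s ∧ α ∈ L
    · rw [b1 w α h.1 h.2]
      exact ra w α h.1 hw h.2 hα
    · simp only [b, if_neg h, if_pos (And.intro hw hα)]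
  have b3 : ∀ w α, w ∉ s → w ∈ s' → α ∈ L → α ∉ L' → (b w α ↔ ¬ Z w α) := by
    intro w α hw hw' hα hα'
    simp only [b, hw, hα', hα, false_and, and_false, if_false, if_true]
  have b4 : ∀ w α, w ∈ s → w ∉ s' → α ∉ L → (b w α ↔ O w α) := by
    intro w α hw hw' hα
    simp only [b, hw', hα, false_and, and_false, if_false]
  refine ⟨b, fun u hu α hα => b1 u α hu hα, fun u hu α hα => b2 u α hu hα, ?_, ?_, ?_⟩
  · intro u w huw
    obtain ⟨hu, hw, δ, k1, k2, k3, k4, k5⟩ := hE u w huw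
    refine ⟨δ, Finset.mem_union_left _ k1, k2, (b1 u δ hu k1).2 k3, fun h => k4 ((b1 w δ hw k1).1 h),
      fun α hα hαδ hbw => ?_⟩
    have hag : Ag α (v u) (v w) := k2.ag hαδ
    by_cases hαL : α ∈ L
    · exact (b1 u α hu hαL).2 (k5 α hαL hαδ ((b1 w α hw hαL).1 hbw))
    have hαL' : α ∈ L' := (Finset.mem_union.1 hα).resolve_left hαL
    by_cases hws : w ∈ s'
    · by_cases hus : u ∈ s'
      · have := hE' u w ((root u w hu hus hw hws).1 huw)
        exact (b2 u α hus hαL').2 (this.2.2.mono_at hαL' hag ((b2 w α hws hαL').1 hbw))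
      · exact (b4 u α hu hus hαL).2 (Or.inl ⟨w, hw, hws, huw, hag, (b2 w α hws hαL').1 hbw⟩)
    · have hO : O w α := (b4 w α hw hws hαL).1 hbw
      have hOu : O u α := by
        rcases hO with ⟨ρ, r1, r2, r3, r4, r5⟩ | ⟨hon, r1, r2⟩
        · exact Or.inl ⟨ρ, r1, r2, tE _ _ _ huw r3, hag.trans r4, r5⟩
        · refine Or.inr ⟨hon, Or.inr ?_, r2⟩
          rcases r1 with rfl | ⟨r1, r1'⟩
          · exact ⟨huw, hag⟩
          · exact ⟨tE _ _ _ huw r1, hag.trans r1'⟩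
      by_cases hus : u ∈ s'
      · refine (b2 u α hus hαL').2 ?_
        rcases hOu with ⟨ρ, r1, r2, r3, r4, r5⟩ | ⟨hon, r1, r2⟩
        · exact (hE' u ρ ((root u ρ hu hus r1 r2).1 r3)).2.2.mono_at hαL' r4 r5
        · have hne : u ≠ x := by
            rintro rfl
            exact (hx hon).2 hus
          obtain ⟨r1, r1'⟩ := r1.resolve_left hne
          have hR := (hE' u y ((h1 hon u hu hus).1 r1)).2.2
          rcases r2 with rfl | ⟨r2, r2'⟩
          · exact (hR.at_sp ((hε hon).ag_left r1')).2.1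
          · exact hR.mono_at hαL' (r1'.trans r2) r2'
      · exact (b4 u α hu hus hαL).2 hOu
  · intro u w huw
    obtain ⟨hu, hw, δ, k1, k2, k3, k4, k5⟩ := hE' u w huw
    refine ⟨δ, Finset.mem_union_right _ k1, k2, (b2 u δ hu k1).2 k3, fun h => k4 ((b2 w δ hw k1).1 h),
      fun α hα hαδ hbw => ?_⟩
    have hag : Ag α (v u) (v w) := k2.ag hαδ
    by_cases hαL' : α ∈ L'
    · exact (b2 u α hu hαL').2 (k5 α hαL' hαδ ((b2 w α hw hαL').1 hbw))
    have hαL : α ∈ L := (Finset.mem_union.1 hα).resolve_right hαL'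
    by_contra hbu
    revert hbw
    show ¬ b w α
    by_cases hus : u ∈ s
    · have hau : ¬ a u α := fun h => hbu ((b1 u α hus hαL).2 h)
      by_cases hws : w ∈ s
      · rw [b1 w α hws hαL]
        exact fun h => hau ((hE u w ((root u w hus hu hws hw).2 huw)).2.2.mono_at hαL hag h)
      · rw [b3 w α hws hw hαL hαL', not_not]
        exact Or.inl ⟨u, hus, hu, huw, hag, hau⟩
    · have hZ : Z u α := by
        by_contra hc
        exact hbu ((b3 u α hus hu hαL hαL').2 hc)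
      have hZw : Z w α := by
        rcases hZ with ⟨ρ, r1, r2, r3, r4, r5⟩ | ⟨hon, r1, r2⟩
        · exact Or.inl ⟨ρ, r1, r2, tE' _ _ _ r3 huw, r4.trans hag, r5⟩
        · refine Or.inr ⟨hon, Or.inr ?_, r2⟩
          rcases r1 with rfl | ⟨r1, r1'⟩
          · exact ⟨huw, hag⟩
          · exact ⟨tE' _ _ _ r1 huw, r1'.trans hag⟩
      by_cases hws : w ∈ s
      · rw [b1 w α hws hαL]
        intro haw
        rcases hZw with ⟨ρ, r1, r2, r3, r4, r5⟩ | ⟨hon, r1, r2⟩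
        · exact r5 ((hE ρ w ((root ρ w r1 r2 hws hw).2 r3)).2.2.mono_at hαL r4 haw)
        · have hne : w ≠ y := by
            rintro rfl
            exact (hy hon).2 hws
          obtain ⟨r1, r1'⟩ := r1.resolve_left hne
          have hR := (hE x w ((h2 hon w hws hw).2 r1)).2.2
          rcases r2 with rfl | ⟨r2, r2'⟩
          · exact (hR.at_sp ((hε hon).ag_right r1')).2.2 haw
          · exact r2' (hR.mono_at hαL (r2.trans r1') haw)
      · rw [b3 w α hws hw hαL hαL', not_not]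
        exact hZw
  · intro hon
    obtain ⟨hxs, hxs'⟩ := hx hon
    obtain ⟨hys', hys⟩ := hy hon
    have hsp := hε hon
    refine ⟨ε, Finset.mem_union.2 (hεL hon), hsp, ?_, ?_, fun α hα hαε hby => ?_⟩
    · by_cases hεL1 : ε ∈ L
      · exact (b1 x ε hxs hεL1).2 (h4 hon hεL1)
      · exact (b4 x ε hxs hxs' hεL1).2 (Or.inr ⟨hon, Or.inl rfl, Or.inl rfl⟩)
    · by_cases hεL2 : ε ∈ L'
      · rw [b2 y ε hys' hεL2]
        exact h5 hon hεL2
      · rw [b3 y ε hys hys' ((hεL hon).resolve_right hεL2) hεL2, not_not]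
        exact Or.inr ⟨hon, Or.inl rfl, Or.inl rfl⟩
    · have hag := hsp.ag hαε
      by_cases hαL : α ∈ L
      · refine (b1 x α hxs hαL).2 ?_
        by_cases hαL' : α ∈ L'
        · exact (h3 hon α hαL hαL').2 ((b2 y α hys' hαL').1 hby)
        · by_contra hc
          exact (b3 y α hys hys' hαL hαL').1 hby (Or.inr ⟨hon, Or.inl rfl, Or.inr ⟨hag, hc⟩⟩)
      · have hαL' : α ∈ L' := (Finset.mem_union.1 hα).resolve_left hαL
        exact (b4 x α hxs hxs' hαL).2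
          (Or.inr ⟨hon, Or.inl rfl, Or.inr ⟨hag, (b2 y α hys' hαL').1 hby⟩⟩)

end Pool.Agent.H625.IdA
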