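import Pool.Agent.H625.IdA.Forced
import Pool.Agent.H625.IdA.Card

/-!
# The forcing notion has the required properties
-/

set_option autoImplicit false

namespace Pool.Agent.H625.IdA

open Cardinal Set Pool.Agent.Helper669.Forcing
open Pool.Agent.W684.FM (PCCC Om1)

theorem bigN (p : Cd KK) : p ∈ BigN (Cd KK) Br := by
  have := nonempty_KK
  intro S
  obtain ⟨b, b', hbb, hS⟩ := exists_same pccc mk_Cd_le lt_mk_Br S
  refine mem_fex.2 fun q _ => ⟨q, le_rfl, b, mem_fex.2 fun r _ => ⟨r, le_rfl, b', hbb,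
    fun a => ?_⟩⟩
  show r ∈ fand (fimp (meets (S b a)) (meets (S b' a))) (fimp (meets (S b' a)) (meets (S b a)))
  rw [hS a]
  exact ⟨mem_fimp.2 fun t _ ht => ⟨t, le_rfl, ht⟩, mem_fimp.2 fun t _ ht => ⟨t, le_rfl, ht⟩⟩

theorem fails (p : Cd KK) : p ∈ Fails (Cd KK) := by
  have := nonempty_KK
  unfold Fails
  refine mem_fex.2 fun q _ => ⟨q, le_rfl, Nd KK, mem_fex.2 fun q _ => ⟨q, le_rfl, RN,
    mem_fex.2 fun q _ => ⟨q, le_rfl, Br, mem_fex.2 fun q _ => ⟨q, le_rfl, fun b => JN b.1, ?_⟩⟩⟩⟩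
  exact ⟨isPO q, noAnti q, fun b => isIdealN exists_gt_KK b.2 q,
    fun b b' hbb => incomp exists_gt_KK b.2 (fun h => hbb (Subtype.ext h)) q, bigN q⟩

theorem exists_forcing : ∃ (P : Type) (_ : Preorder P), Nonempty P ∧ PCCC P ∧
    ∀ p : P, p ∈ CardinalsPreserved.{0, 0} P ∧ p ∈ Fails P := by
  have := nonempty_KK
  exact ⟨Cd KK, inferInstance, ⟨⟨∅, ∅, ∅⟩⟩, pccc,
    fun p => ⟨PCCC.cardinalsPreserved pccc p, fails p⟩⟩

end Pool.Agent.H625.IdA
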