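import Pool.Agent.H625.IdA.Cond
import Pool.Graph.R_seed8.W684.FM.Ambient

/-!
# The forced statements
-/

set_option autoImplicit false

namespace Pool.Agent.H625.IdA

open Cardinal Set Pool.Agent.Helper669.Forcing
open Pool.Agent.W684.FM (PCCC Om1)

section Sentences

variable {P : Type} [Preorder P]

/-- The relation named by `R` is a partial order of `X`. -/
def IsPO {X : Type} (R : X → X → Set P) : Set P :=
  fand (fall fun x => meets (R x x))
    (fand (fall fun x => fall fun y => fall fun z =>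
        fimp (fand (meets (R x y)) (meets (R y z))) (meets (R x z)))
      (fall fun x => fall fun y =>
        fimp (fand (meets (R x y)) (meets (R y x))) (fground (x = y))))

/-- For every function `f` from `ω₁` to `X` there are `a ≠ b` with `f a ≤ f b`. -/
def NoAnti {X : Type} (R : X → X → Set P) : Set P :=
  fall fun f : Om1 → X → Set P => fimp (IsFun f) (fex fun a => fex fun b =>
    fand (fground (a ≠ b)) (fex fun x => fex fun y =>
      fand (meets (f a x)) (fand (meets (f b y)) (meets (R x y)))))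

/-- The set named by `I` is an ideal. -/
def IsIdealN {X : Type} (R : X → X → Set P) (I : X → Set P) : Set P :=
  fand (fall fun x => fall fun y => fimp (fand (meets (I y)) (meets (R x y))) (meets (I x)))
    (fall fun x => fall fun y => fimp (fand (meets (I x)) (meets (I y)))
      (fex fun z => fand (meets (I z)) (fand (meets (R x z)) (meets (R y z)))))

/-- For every family of subsets `S y` of `ω₁` with index set `Y` there are `y ≠ y'` with
`S y = S y'`. -/
def BigN (P : Type) [Preorder P] (Y : Type) : Set P :=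
  fall fun S : Y → Om1 → Set P => fex fun y => fex fun y' => fand (fground (y ≠ y'))
    (fall fun a => fand (fimp (meets (S y a)) (meets (S y' a)))
      (fimp (meets (S y' a)) (meets (S y a))))

/-- There are a partially ordered set `X` without antichains of size `ℵ₁` and a family of more than
`2 ^ ℵ₁` pairwise incomparable ideals of `X`. -/
def Fails (P : Type) [Preorder P] : Set P :=
  fex fun X : Type => fex fun R : X → X → Set P => fex fun Y : Type =>
    fex fun J : Y → X → Set P =>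
      fand (IsPO R) (fand (NoAnti R) (fand (fall fun y => IsIdealN R (J y))
        (fand (fall fun y => fall fun y' => fall fun _ : y ≠ y' =>
          fex fun x => fand (meets (J y x)) (fnot (meets (J y' x)))) (BigN P Y))))

end Sentences

section Names

variable {K : Type} [LinearOrder K]

/-- The name of the partial order. -/
def RN (x y : Nd K) : Set (Cd K) := {p | x = y ∨ p.R x y}

/-- The name of the ideal of a branch. -/
def JN (b : Set K) (x : Nd K) : Set (Cd K) :=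
  {p | x ∈ p.s ∧ ∃ δ ∈ p.L, Sp δ (vl x) b ∧ p.a x δ}

theorem down_RN (x y : Nd K) : Down (RN x y) := by
  rintro p (h | h) q hq
  · exact Or.inl h
  · exact Or.inr (hq.2.2.2 x y h)

theorem down_JN (b : Set K) (x : Nd K) : Down (JN b x) := by
  rintro p ⟨h, δ, h1, h2, h3⟩ q hq
  exact ⟨hq.1 h, δ, hq.2.1 h1, h2, (hq.2.2.1 x h δ h1).2 h3⟩

theorem RN.trans {x y z : Nd K} {p : Cd K} (h : p ∈ RN x y) (h' : p ∈ RN y z) : p ∈ RN x z := by
  rcases h with rfl | h
  · exact h'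
  · rcases h' with rfl | h'
    · exact Or.inr h
    · exact Or.inr (h.trans h')

theorem RN.antisymm {x y : Nd K} {p : Cd K} (h : p ∈ RN x y) (h' : p ∈ RN y x) : x = y := by
  rcases h with h | h
  · exact h
  · rcases h' with h' | h'
    · exact h'.symm
    · exact (h.trans h').irrefl.elim

theorem JN.init {b : Set K} {x y : Nd K} {p : Cd K} (h : p ∈ JN b y) (h' : p ∈ RN x y) :
    p ∈ JN b x := by
  rcases h' with rfl | h'
  · exact h
  obtain ⟨hy, δ, h1, h2, h3⟩ := h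
  obtain ⟨hx, _, ε, k1, k2, k3, k4, k5⟩ := h'
  refine ⟨hx, ?_⟩
  rcases lt_trichotomy δ ε with hlt | heq | hlt
  · exact ⟨δ, h1, h2.ag_left (k2.ag hlt), k5 δ h1 hlt h3⟩
  · subst heq
    exact absurd h3 k4
  · exact ⟨ε, k1, k2.ag_right (h2.ag hlt), k3⟩

theorem add_node (p : Cd K) (x : Nd K) : ∃ q ≤ p, x ∈ q.s := by
  classical
  exact ⟨mkC (insert x p.s) p.L p.a, mkC_le (Finset.subset_insert _ _) Finset.Subset.rfl
    (fun _ _ _ _ => Iff.rfl) (fun _ _ h => h.2.2), Finset.mem_insert_self _ _⟩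

/-- adding a node below the branch `b` -/
theorem add_below [WellFoundedLT K] [Nonempty K] (hK : ∀ γ : K, ∃ δ, γ < δ) (p : Cd K)
    {b : Set K} (hb : ∀ γ, ∃ β ∈ b, γ ≤ β) (D : Finset K) :
    ∃ q ≤ p, ∃ z : Nd K, ∃ γ : K, (∀ α ∈ D, α < γ) ∧ Sp γ (vl z) b ∧ z ∈ q.s ∧ γ ∈ q.L ∧
      D ⊆ q.L ∧ (∀ α ∈ q.L, (q.a z α ↔ α = γ)) ∧
      ∀ x ∈ p.s, ∀ δ ∈ p.L, Sp δ (vl x) b → p.a x δ → q.R x z := by
  classical
  have hne : ∀ u : Nd K, ∃ δ, Sp δ (vl u) b := by
    intro u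
    apply exists_sp
    intro h
    obtain ⟨γ, hγ⟩ := u.2
    obtain ⟨β, hβ, hβ'⟩ := hb γ
    have h1 : β ∈ vl u := by
      rw [h]
      exact hβ
    exact absurd (hγ β h1) (not_lt.2 hβ')
  choose Δ hΔ using hne
  obtain ⟨M, hM⟩ := Finset.exists_le (p.L ∪ D ∪ p.s.image Δ)
  obtain ⟨γ, hγ⟩ := hK M
  have hγL : ∀ α ∈ p.L, α < γ := fun α hα => (hM α (by simp [hα])).trans_lt hγ
  have hγD : ∀ α ∈ D, α < γ := fun α hα => (hM α (by simp [hα])).trans_lt hγ
  have hγs : ∀ u ∈ p.s, Δ u < γ := fun u hu =>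
    (hM (Δ u) (Finset.mem_union_right _ (Finset.mem_image_of_mem _ hu))).trans_lt hγ
  let z0 : Set K := {β | (β < γ ∧ β ∈ b) ∨ (β = γ ∧ γ ∉ b)}
  obtain ⟨γ', hγ'⟩ := hK γ
  let z : Nd K := ⟨z0, γ', by
    rintro β (⟨h, _⟩ | ⟨h, _⟩)
    · exact h.trans hγ'
    · exact h ▸ hγ'⟩
  have hz : Sp γ (vl z) b := by
    refine ⟨fun β hβ => ?_, fun h => ?_⟩
    · constructor
      · rintro (⟨_, h⟩ | ⟨h, _⟩)
        · exact h
        · exact absurd hβ (by rw [h]; exact lt_irrefl _)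
      · exact fun h => Or.inl ⟨hβ, h⟩
    · by_cases hγb : γ ∈ b
      · rcases h.2 hγb with ⟨h1, _⟩ | ⟨_, h1⟩
        · exact lt_irrefl _ h1
        · exact h1 hγb
      · exact hγb (h.1 (Or.inr ⟨rfl, hγb⟩))
  have hzs : z ∉ p.s := by
    intro h
    have h1 := (hΔ z).unique hz
    have h2 := hγs z h
    rw [h1] at h2
    exact lt_irrefl _ h2
  let e : Nd K → K → Prop := fun w α => if w = z then α = γ else (α ∈ p.L ∧ p.a w α)
  have e1 : ∀ w ∈ p.s, ∀ α, (e w α ↔ α ∈ p.L ∧ p.a w α) := by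
    intro w hw α
    have : w ≠ z := fun h => hzs (h ▸ hw)
    simp only [e, if_neg this]
  have e2 : ∀ α, (e z α ↔ α = γ) := by
    intro α
    simp only [e, if_true]
  let q : Cd K := mkC (insert z p.s) (insert γ (p.L ∪ D)) e
  have hLq : q.L = insert γ (p.L ∪ D) := rfl
  have hsub : p.L ⊆ insert γ (p.L ∪ D) :=
    Finset.subset_union_left.trans (Finset.subset_insert _ _)
  have hqp : q ≤ p := by
    refine mkC_le (Finset.subset_insert _ _) hsub (fun x hx α hα => ?_) (fun x y hxy => ?_)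
    · rw [e1 x hx α]
      exact ⟨fun h => h.2, fun h => ⟨hα, h⟩⟩
    · obtain ⟨hx, hy, δ, k1, k2, k3, k4, k5⟩ := hxy
      refine ⟨δ, hsub k1, k2, (e1 x hx δ).2 ⟨k1, k3⟩, fun h => k4 ((e1 y hy δ).1 h).2,
        fun α hα hαδ hya => ?_⟩
      obtain ⟨h1, h2⟩ := (e1 y hy α).1 hya
      exact (e1 x hx α).2 ⟨h1, k5 α h1 hαδ h2⟩
  have hzq : z ∈ q.s := Finset.mem_insert_self _ _
  have hqz : ∀ α ∈ q.L, (q.a z α ↔ α = γ) := fun α hα => (mkC_a hzq hα).trans (e2 α)
  refine ⟨q, hqp, z, γ, hγD, hz, hzq, Finset.mem_insert_self _ _,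
    Finset.subset_union_right.trans (Finset.subset_insert _ _), hqz, ?_⟩
  intro x hx δ hδ hsp hxδ
  have hδγ := hγL δ hδ
  refine ⟨hqp.1 hx, hzq, δ, hqp.2.1 hδ, hsp.ag_right (hz.ag hδγ).symm,
    (hqp.2.2.1 x hx δ hδ).2 hxδ, fun h => ?_, fun α hα hαδ h => ?_⟩
  · exact absurd ((hqz δ (hqp.2.1 hδ)).1 h) hδγ.ne
  · exact absurd ((hqz α hα).1 h) (hαδ.trans hδγ).ne

theorem pccc [WellFoundedLT K] [hK : Nonempty K] : PCCC (Cd K) := by
  intro A hA
  by_contra hcon
  obtain ⟨k⟩ := hK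
  let o : Nd K := ⟨∅, k, fun _ h => h.elim⟩
  have h1 : ∀ a : A, ∃ q ≤ a.1, o ∈ q.s := fun a => add_node a.1 o
  choose q hq hoq using h1
  have hu : ¬ (univ : Set A).Countable := by
    rw [countable_univ_iff]
    exact fun h => hcon h
  obtain ⟨i, j, hij, r, h1, h2, -⟩ := main q (fun _ => o) hoq hu
  exact hA i i.2 j j.2 (fun h => hij (Subtype.ext h)) ⟨r, h1.trans (hq i), h2.trans (hq j)⟩

theorem isPO (p : Cd K) : p ∈ IsPO (RN (K := K)) := by
  refine ⟨fun x => meets_of_mem (Or.inl rfl), fun x y z => ?_, fun x y => ?_⟩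
  · refine mem_fimp.2 fun q _ hq => ?_
    obtain ⟨r, hr, hr'⟩ := exists_of_meets (down_RN x y) hq.1
    obtain ⟨t, ht, ht'⟩ := exists_of_meets (down_RN y z) (down_meets _ _ hq.2 _ hr)
    exact ⟨t, ht.trans hr, meets_of_mem (RN.trans (down_RN x y _ hr' _ ht) ht')⟩
  · refine mem_fimp.2 fun q _ hq => ?_
    obtain ⟨r, hr, hr'⟩ := exists_of_meets (down_RN x y) hq.1
    obtain ⟨t, ht, ht'⟩ := exists_of_meets (down_RN y x) (down_meets _ _ hq.2 _ hr)
    exact ⟨t, ht.trans hr, RN.antisymm (down_RN x y _ hr' _ ht) ht'⟩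

theorem noAnti [WellFoundedLT K] (p : Cd K) : p ∈ NoAnti (RN (K := K)) := by
  intro f
  refine mem_fimp.2 fun q _ hq => ?_
  have h1 : ∀ a : Om1, ∃ r ≤ q, ∃ x, r ∈ meets (f a x) ∧ x ∈ r.s := by
    intro a
    obtain ⟨r, hr, x, hx⟩ := IsFun.total hq a
    obtain ⟨t, ht, hxt⟩ := add_node r x
    exact ⟨t, ht.trans hr, x, down_meets _ _ hx _ ht, hxt⟩
  choose r hr x hx hxr using h1
  have hu : ¬ (univ : Set Om1).Countable := by
    rw [← Cardinal.le_aleph0_iff_set_countable, mk_univ, mk_ord_toType]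
    exact not_le.2 aleph0_lt_aleph_one
  obtain ⟨a, b, hab, t, h1, h2, h3⟩ := main r x hxr hu
  refine ⟨t, h1.trans (hr a), ?_⟩
  refine mem_fex_of_mem a (down_fex _) (mem_fex_of_mem b
    (down_fand (down_fground _) (down_fex _)) ⟨hab, ?_⟩)
  refine mem_fex_of_mem (x a) (down_fex _) (mem_fex_of_mem (x b)
    (down_fand (down_meets _) (down_fand (down_meets _) (down_meets _))) ?_)
  exact ⟨down_meets _ _ (hx a) _ h1, down_meets _ _ (hx b) _ h2, meets_of_mem h3⟩

theorem isIdealN [WellFoundedLT K] [Nonempty K] (hK : ∀ γ : K, ∃ δ, γ < δ)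
    {b : Set K} (hb : ∀ γ, ∃ β ∈ b, γ ≤ β) (p : Cd K) : p ∈ IsIdealN RN (JN b) := by
  refine ⟨fun x y => ?_, fun x y => ?_⟩
  · refine mem_fimp.2 fun q _ hq => ?_
    obtain ⟨r, hr, hr'⟩ := exists_of_meets (down_JN b y) hq.1
    obtain ⟨t, ht, ht'⟩ := exists_of_meets (down_RN x y) (down_meets _ _ hq.2 _ hr)
    exact ⟨t, ht.trans hr, meets_of_mem (JN.init (down_JN b y _ hr' _ ht) ht')⟩
  · refine mem_fimp.2 fun q _ hq => ?_
    obtain ⟨r, hr, hr'⟩ := exists_of_meets (down_JN b x) hq.1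
    obtain ⟨t, ht, ht'⟩ := exists_of_meets (down_JN b y) (down_meets _ _ hq.2 _ hr)
    obtain ⟨hx, δ, hδ, hδ1, hδ2⟩ := down_JN b x _ hr' _ ht
    obtain ⟨hy, ε, hε, hε1, hε2⟩ := ht'
    obtain ⟨u, hu, z, γ, -, k1, k2, k3, -, k4, k5⟩ := add_below hK t hb ∅
    refine ⟨u, (hu.trans ht).trans hr, mem_fex_of_mem z
      (down_fand (down_meets _) (down_fand (down_meets _) (down_meets _))) ⟨?_, ?_, ?_⟩⟩
    · exact meets_of_mem ⟨k2, γ, k3, k1, (k4 γ k3).2 rfl⟩
    · exact meets_of_mem (Or.inr (k5 x hx δ hδ hδ1 hδ2))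
    · exact meets_of_mem (Or.inr (k5 y hy ε hε hε1 hε2))

theorem incomp [WellFoundedLT K] [Nonempty K] (hK : ∀ γ : K, ∃ δ, γ < δ)
    {b b' : Set K} (hb : ∀ γ, ∃ β ∈ b, γ ≤ β) (hne : b ≠ b') (p : Cd K) :
    p ∈ fex fun x => fand (meets (JN b x)) (fnot (meets (JN b' x))) := by
  refine mem_fex.2 fun q _ => ?_
  obtain ⟨δ, hδ⟩ := exists_sp hne
  obtain ⟨u, hu, z, γ, k0, k1, k2, k3, kD, k4, k5⟩ := add_below hK q hb {δ}
  have hδγ : δ < γ := k0 δ (Finset.mem_singleton_self _)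
  have hδu : δ ∈ u.L := kD (Finset.mem_singleton_self _)
  refine ⟨u, hu, z, meets_of_mem ⟨k2, γ, k3, k1, (k4 γ k3).2 rfl⟩, fun t ht hmt => ?_⟩
  obtain ⟨v, hv, _, ε, _, e2, e3⟩ := exists_of_meets (down_JN b' z) hmt
  have h1 : Sp δ (vl z) b' := hδ.ag_left (k1.ag hδγ)
  obtain rfl := e2.unique h1
  have h2 := ((hv.trans ht).2.2.1 z k2 ε hδu).1 e3
  exact hδγ.ne ((k4 ε hδu).1 h2)

end Names

end Pool.Agent.H625.IdA
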